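import Pool.Agent.H518R3.RD.Defs

set_option autoImplicit false

open scoped ComplexOrder InnerProductSpace Topology
open Filter

namespace Pool.Agent.H518R3.RD.T_SEQ

open H759R2.Kad H710R2.DP H917R2.Tr Pool.Agent.H735G Pool.Agent.H467F

theorem icp_zero {H : Type} [NormedAddCommGroup H] [InnerProductSpace ℂ H] [CompleteSpace H]
    (M : VonNeumannAlgebra H) : IsCP M 0 := by
  refine ⟨⟨star_zero _, mul_zero _⟩, ?_⟩
  unfold IsCen
  refine ⟨zero_mem M.toStarSubalgebra, ?_⟩
  intro x _
  simp

theorem gen_zero {H : Type} [NormedAddCommGroup H] [InnerProductSpace ℂ H] [CompleteSpace H]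
    (M : VonNeumannAlgebra H) : Gen M 0 := by
  refine ⟨0, 0, zero_mem M.toStarSubalgebra, zero_mem M.toStarSubalgebra, star_zero _,
    star_zero _, mul_zero _, mul_zero _, ?_⟩
  intro x _
  rw [zero_mul]
  unfold cc
  exact Set.zero_mem_centralizer

theorem r_SEQ (hG : G_part) : R_SEQ := by
  intro H _ _ _ _ M hloc
  obtain ⟨T, hT, g, ζ, h1, h2, h3⟩ := hG H M (fun g _ => Gen M g) (by
    intro z hz hz0
    obtain ⟨g, a, b, c, d⟩ := hloc z hz hz0
    exact ⟨g, a, b, c, fun _ => 0, d⟩)
  classical
  obtain ⟨enc⟩ := nonempty_encodable T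
  refine ⟨fun n => (Encodable.decode₂ T n).elim 0 g, ?_, ?_, ?_⟩
  · intro n
    show IsCP M ((Encodable.decode₂ T n).elim 0 g) ∧ Gen M ((Encodable.decode₂ T n).elim 0 g)
    cases h : Encodable.decode₂ T n with
    | none => exact ⟨icp_zero M, gen_zero M⟩
    | some t => exact h1 t
  · intro m n hmn
    show (Encodable.decode₂ T m).elim 0 g * (Encodable.decode₂ T n).elim 0 g = 0
    cases hm : Encodable.decode₂ T m with
    | none => exact zero_mul _
    | some s =>
      cases hn : Encodable.decode₂ T n with
      | none => exact mul_zero _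
      | some t =>
        refine h2 s t ?_
        rintro rfl
        have e1 := Encodable.decode₂_eq_some.1 hm
        have e2 := Encodable.decode₂_eq_some.1 hn
        exact hmn (e1.symm.trans e2)
  · intro y hy
    have hy' : ∀ t, y * g t = 0 := by
      intro t
      have := hy (Encodable.encode t)
      simpa [Encodable.decode₂_encode] using this
    have hs : star y = 0 := by
      ext ξ
      have h4 := h3 (star y ξ)
      have h5 : ∀ t, g t (star y ξ) = 0 := by
        intro t
        have h6 : star (y * g t) = 0 := by rw [hy' t, star_zero]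
        rw [star_mul, (h1 t).1.1.1] at h6
        exact congrArg (fun A : H →L[ℂ] H => A ξ) h6
      have h7 : (fun t => ‖g t (star y ξ)‖ ^ 2) = fun _ => (0 : ℝ) := by
        funext t
        rw [h5 t]; simp
      rw [h7] at h4
      have h8 : ‖star y ξ‖ ^ 2 = 0 := (hasSum_zero.unique h4).symm
      have h9 : ‖star y ξ‖ = 0 := by
        exact pow_eq_zero_iff (two_ne_zero) |>.1 h8
      rw [norm_eq_zero.1 h9]
      rfl
    exact star_eq_zero.1 hs

end Pool.Agent.H518R3.RD.T_SEQ
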